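import Mathlib

/-!
A single polynomial with integer coefficients whose image determines every
non-degenerate endomorphism of `K[x_1, ..., x_n]`, uniformly in the field `K`
of characteristic zero.
-/

namespace Pool.Agent.Results.MP_d61c7e_al.SinglePoly

open MvPolynomial

/-- The two-variable building block. -/
def U2 {R : Type*} [CommRing R] (x y : R) : R :=
  y * (y - x) * (y - 2 * x) * (y - 3 * x) + x ^ 2

/-- The iterated building block. -/
def U {R : Type*} [CommRing R] (f : ℕ → R) : ℕ → R
  | 0 => 0
  | k + 1 => U2 (U f k) (f k)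

/-- The tower of squares put on top of `w`. -/
def V {R : Type*} [CommRing R] (w : R) (f : ℕ → R) : ℕ → R
  | 0 => w
  | k + 1 => (w ^ 3 ^ (k + 1) + f k) ^ 2 + V w f k

lemma map_U {R S : Type*} [CommRing R] [CommRing S] (φ : R →+* S) (f : ℕ → R) (k : ℕ) :
    φ (U f k) = U (fun i => φ (f i)) k := by
  induction k with
  | zero => simp [U]
  | succ k ih => simp [U, U2, ih, map_ofNat]

lemma map_V {R S : Type*} [CommRing R] [CommRing S] (φ : R →+* S) (w : R) (f : ℕ → R) (k : ℕ) :
    φ (V w f k) = V (φ w) (fun i => φ (f i)) k := by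
  induction k with
  | zero => simp [V]
  | succ k ih => simp [V, ih]

section degree

variable {σ K : Type*} [Field K] [CharZero K]

lemma deg_mul {a b : MvPolynomial σ K} (ha : a ≠ 0) (hb : b ≠ 0) :
    (a * b).totalDegree = a.totalDegree + b.totalDegree :=
  totalDegree_mul_of_isDomain ha hb

lemma deg_pow {a : MvPolynomial σ K} (ha : a ≠ 0) (n : ℕ) :
    (a ^ n).totalDegree = n * a.totalDegree := by
  induction n with
  | zero => simp
  | succ n ih => rw [pow_succ, deg_mul (pow_ne_zero _ ha) ha, ih]; ring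

lemma deg_const_mul {c : K} (hc : c ≠ 0) (a : MvPolynomial σ K) :
    (C c * a).totalDegree = a.totalDegree := by
  by_cases ha : a = 0
  · simp [ha]
  · rw [deg_mul (by simpa using hc) ha]; simp

lemma deg_const_mul_le (c : K) (a : MvPolynomial σ K) :
    (C c * a).totalDegree ≤ a.totalDegree := by
  by_cases hc : c = 0
  · simp [hc]
  · rw [deg_const_mul hc]

/-- of two distinct members of the pencil, one has full degree -/
lemma pencil {f g : MvPolynomial σ K} {s t : K} (hst : s ≠ t) :
    max f.totalDegree g.totalDegree ≤ (g - C s * f).totalDegree ∨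
    max f.totalDegree g.totalDegree ≤ (g - C t * f).totalDegree := by
  by_contra hcon
  push Not at hcon
  obtain ⟨h1, h2⟩ := hcon
  have hne : t - s ≠ 0 := sub_ne_zero.2 (Ne.symm hst)
  have hf : C (t - s) * f = (g - C s * f) - (g - C t * f) := by
    rw [C_sub]; ring
  have hf' : f.totalDegree < max f.totalDegree g.totalDegree := by
    calc f.totalDegree = (C (t - s) * f).totalDegree := (deg_const_mul hne f).symm
      _ = ((g - C s * f) - (g - C t * f)).totalDegree := by rw [hf]
      _ ≤ max _ _ := totalDegree_sub _ _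
      _ < _ := max_lt h1 h2
  have hg' : g.totalDegree < max f.totalDegree g.totalDegree := by
    calc g.totalDegree = ((g - C s * f) + C s * f).totalDegree := by ring_nf
      _ ≤ max _ _ := totalDegree_add _ _
      _ < _ := max_lt h1 (lt_of_le_of_lt (deg_const_mul_le s f) hf')
  exact absurd (max_lt hf' hg') (lt_irrefl _)

lemma U2_eq (f g : MvPolynomial σ K) :
    U2 f g = (g - C 0 * f) * (g - C 1 * f) * (g - C 2 * f) * (g - C 3 * f) + f ^ 2 := by
  have h2 : (C (2 : K) : MvPolynomial σ K) = 2 := map_ofNat C 2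
  have h3 : (C (3 : K) : MvPolynomial σ K) = 3 := map_ofNat C 3
  rw [h2, h3]
  simp [U2]

lemma deg_U2 (f g : MvPolynomial σ K) (hM : 0 < max f.totalDegree g.totalDegree) :
    2 * max f.totalDegree g.totalDegree ≤ (U2 f g).totalDegree := by
  rw [U2_eq]
  -- case: some factor vanishes
  have key0 : ∀ s : K, g - C s * f = 0 →
      2 * max f.totalDegree g.totalDegree ≤ (f ^ 2).totalDegree := by
    intro s hs
    have hg : g = C s * f := sub_eq_zero.1 hs
    have h1 : g.totalDegree ≤ f.totalDegree := by rw [hg]; exact deg_const_mul_le s f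
    have hf : f ≠ 0 := by
      rintro rfl
      simp at h1
      simp [h1] at hM
    rw [deg_pow hf, max_eq_left h1]
  by_cases h0 : g - C 0 * f = 0
  · rw [h0]; simpa using key0 0 h0
  by_cases h1 : g - C 1 * f = 0
  · rw [h1]; simpa using key0 1 h1
  by_cases h2 : g - C 2 * f = 0
  · rw [h2]; simpa using key0 2 h2
  by_cases h3 : g - C 3 * f = 0
  · rw [h3]; simpa using key0 3 h3
  have hprod : ((g - C 0 * f) * (g - C 1 * f) * (g - C 2 * f) * (g - C 3 * f)).totalDegree =
      (g - C 0 * f).totalDegree + (g - C 1 * f).totalDegree + (g - C 2 * f).totalDegree +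
        (g - C 3 * f).totalDegree := by
    rw [deg_mul (mul_ne_zero (mul_ne_zero h0 h1) h2) h3, deg_mul (mul_ne_zero h0 h1) h2,
      deg_mul h0 h1]
  have p01 := pencil (f := f) (g := g) (s := (0 : K)) (t := 1) (by norm_num)
  have p02 := pencil (f := f) (g := g) (s := (0 : K)) (t := 2) (by norm_num)
  have p03 := pencil (f := f) (g := g) (s := (0 : K)) (t := 3) (by norm_num)
  have p12 := pencil (f := f) (g := g) (s := (1 : K)) (t := 2) (by norm_num)
  have p13 := pencil (f := f) (g := g) (s := (1 : K)) (t := 3) (by norm_num)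
  have p23 := pencil (f := f) (g := g) (s := (2 : K)) (t := 3) (by norm_num)
  have hf2 : (f ^ 2).totalDegree ≤ 2 * max f.totalDegree g.totalDegree := by
    refine (totalDegree_pow f 2).trans ?_
    exact Nat.mul_le_mul_left 2 (le_max_left _ _)
  have hge : 3 * max f.totalDegree g.totalDegree ≤
      ((g - C 0 * f) * (g - C 1 * f) * (g - C 2 * f) * (g - C 3 * f)).totalDegree := by
    rw [hprod]
    omega
  rw [totalDegree_add_eq_left_of_totalDegree_lt (by omega)]
  omega

lemma deg_U (f : ℕ → MvPolynomial σ K) (k : ℕ) :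
    (∀ j < k, (f j).totalDegree ≤ (U f k).totalDegree) ∧
    (0 < (U f k).totalDegree → ∀ j < k, (f j).totalDegree < (U f k).totalDegree) := by
  induction k with
  | zero => simp
  | succ k ih =>
    obtain ⟨ih1, ih2⟩ := ih
    have hU : U f (k + 1) = U2 (U f k) (f k) := rfl
    rcases Nat.eq_zero_or_pos (max (U f k).totalDegree (f k).totalDegree) with h0 | hpos
    · have ha : (U f k).totalDegree = 0 := by omega
      have hb : (f k).totalDegree = 0 := by omega
      have hz : ∀ j < k + 1, (f j).totalDegree = 0 := by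
        intro j hj
        rcases Nat.lt_succ_iff_lt_or_eq.1 hj with h | rfl
        · have := ih1 j h; omega
        · exact hb
      refine ⟨fun j hj => by rw [hz j hj]; exact Nat.zero_le _, fun h j hj => by
        rw [hz j hj]; exact h⟩
    · have hmain := deg_U2 (U f k) (f k) hpos
      have : ∀ j < k + 1, (f j).totalDegree < (U f (k + 1)).totalDegree := by
        intro j hj
        rw [hU]
        rcases Nat.lt_succ_iff_lt_or_eq.1 hj with h | rfl
        · have := ih1 j h; omega
        · omega
      exact ⟨fun j hj => (this j hj).le, fun _ => this⟩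

lemma deg_V_le (w : MvPolynomial σ K) (f : ℕ → MvPolynomial σ K) (k : ℕ)
    (hf : ∀ j < k, (f j).totalDegree ≤ w.totalDegree) :
    (V w f k).totalDegree ≤ 2 * 3 ^ k * w.totalDegree := by
  induction k with
  | zero => simp only [V]; omega
  | succ k ih =>
    have ih' := ih (fun j hj => hf j (by omega))
    have h1 : (w ^ 3 ^ (k + 1) + f k).totalDegree ≤ 3 ^ (k + 1) * w.totalDegree := by
      refine (totalDegree_add _ _).trans (max_le (totalDegree_pow _ _) ?_)
      refine (hf k (by omega)).trans ?_
      exact Nat.le_mul_of_pos_left _ (by positivity)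
    have h2 : ((w ^ 3 ^ (k + 1) + f k) ^ 2).totalDegree ≤ 2 * (3 ^ (k + 1) * w.totalDegree) :=
      (totalDegree_pow _ _).trans (Nat.mul_le_mul_left 2 h1)
    simp only [V]
    refine (totalDegree_add _ _).trans (max_le (h2.trans (by rw [mul_assoc])) ?_)
    refine ih'.trans ?_
    exact Nat.mul_le_mul_right _ (Nat.mul_le_mul_left 2 (Nat.pow_le_pow_right (by norm_num)
      (by omega)))

lemma deg_A (w g : MvPolynomial σ K) (k : ℕ) (hg : g.totalDegree < w.totalDegree) :
    (w ^ 3 ^ (k + 1) + g).totalDegree = 3 ^ (k + 1) * w.totalDegree := by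
  have hw : w ≠ 0 := by rintro rfl; simp at hg
  have h1 : (w ^ 3 ^ (k + 1)).totalDegree = 3 ^ (k + 1) * w.totalDegree := deg_pow hw _
  have h2 : w.totalDegree ≤ 3 ^ (k + 1) * w.totalDegree :=
    Nat.le_mul_of_pos_left _ (by positivity)
  rw [totalDegree_add_eq_left_of_totalDegree_lt (by omega), h1]

lemma deg_V (w : MvPolynomial σ K) (f : ℕ → MvPolynomial σ K) (k : ℕ)
    (hw : 0 < w.totalDegree) (hf : ∀ j < k + 1, (f j).totalDegree < w.totalDegree) :
    (V w f (k + 1)).totalDegree = 2 * 3 ^ (k + 1) * w.totalDegree := by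
  have h1 := deg_A w (f k) k (hf k (by omega))
  have hne : w ^ 3 ^ (k + 1) + f k ≠ 0 := by
    intro h
    rw [h] at h1
    simp only [totalDegree_zero] at h1
    have : 0 < 3 ^ (k + 1) * w.totalDegree := by positivity
    omega
  have h2 : ((w ^ 3 ^ (k + 1) + f k) ^ 2).totalDegree = 2 * (3 ^ (k + 1) * w.totalDegree) := by
    rw [deg_pow hne, h1]
  have h3 := deg_V_le w f k (fun j hj => (hf j (by omega)).le)
  have h4 : 2 * 3 ^ k * w.totalDegree < 2 * (3 ^ (k + 1) * w.totalDegree) := by
    have : 0 < 3 ^ k * w.totalDegree := by positivity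
    rw [pow_succ]
    nlinarith
  simp only [V]
  rw [totalDegree_add_eq_left_of_totalDegree_lt (by omega), h2, mul_assoc]

/-- peeling off the top square -/
lemma peel {A A' W W' : MvPolynomial σ K} (h : A ^ 2 + W = A' ^ 2 + W')
    (h1 : W.totalDegree < A.totalDegree) (h2 : W'.totalDegree < A.totalDegree) :
    W = W' ∧ (A = A' ∨ A = -A') := by
  have hfac : (A - A') * (A + A') = W' - W := by linear_combination h
  by_cases hW : W' - W = 0
  · refine ⟨(sub_eq_zero.1 hW).symm, ?_⟩
    rw [hW] at hfac
    rcases mul_eq_zero.1 hfac with h0 | h0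
    · exact Or.inl (sub_eq_zero.1 h0)
    · exact Or.inr (eq_neg_of_add_eq_zero_left h0)
  · exfalso
    have hne : (A - A') ≠ 0 ∧ (A + A') ≠ 0 := by
      rw [← mul_ne_zero_iff, hfac]; exact hW
    have hd := deg_mul hne.1 hne.2
    rw [hfac] at hd
    have hup : (W' - W).totalDegree < A.totalDegree :=
      lt_of_le_of_lt (totalDegree_sub _ _) (max_lt h2 h1)
    have h2A : (C (2 : K) * A).totalDegree ≤ max (A - A').totalDegree (A + A').totalDegree := by
      have : C (2 : K) * A = (A - A') + (A + A') := by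
        have h2 : (C (2 : K) : MvPolynomial σ K) = 2 := map_ofNat C 2
        rw [h2]; ring
      rw [this]
      exact totalDegree_add _ _
    rw [deg_const_mul (by norm_num)] at h2A
    omega

lemma descend (w w' : MvPolynomial σ K) (f g : ℕ → MvPolynomial σ K) (k : ℕ)
    (hw : 0 < w.totalDegree) (hww : w.totalDegree = w'.totalDegree)
    (hf : ∀ j < k, (f j).totalDegree < w.totalDegree)
    (hg : ∀ j < k, (g j).totalDegree < w.totalDegree)
    (h : V w f k = V w' g k) : ∀ j < k, f j = g j := by
  -- first get `w = w'` and the sign alternatives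
  have main : ∀ k : ℕ, (∀ j < k, (f j).totalDegree < w.totalDegree) →
      (∀ j < k, (g j).totalDegree < w.totalDegree) → V w f k = V w' g k →
      w = w' ∧ ∀ j < k, (w ^ 3 ^ (j + 1) + f j = w' ^ 3 ^ (j + 1) + g j ∨
        w ^ 3 ^ (j + 1) + f j = -(w' ^ 3 ^ (j + 1) + g j)) := by
    intro k
    induction k with
    | zero => intro _ _ h; exact ⟨by simpa [V] using h, by simp⟩
    | succ k ih =>
      intro hf hg h
      simp only [V] at h
      have hA := deg_A w (f k) k (hf k (by omega))
      have hV1 := deg_V_le w f k (fun j hj => (hf j (by omega)).le)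
      have hV2 := deg_V_le w' g k (fun j hj => by rw [← hww]; exact (hg j (by omega)).le)
      have h4 : 2 * 3 ^ k * w.totalDegree < 3 ^ (k + 1) * w.totalDegree := by
        have : 0 < 3 ^ k * w.totalDegree := by positivity
        rw [pow_succ]
        nlinarith
      obtain ⟨hVV, hs⟩ := peel h (by omega) (by rw [← hww] at hV2; omega)
      obtain ⟨hw0, hrest⟩ := ih (fun j hj => hf j (by omega)) (fun j hj => hg j (by omega)) hVV
      refine ⟨hw0, fun j hj => ?_⟩
      rcases Nat.lt_succ_iff_lt_or_eq.1 hj with h' | rfl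
      · exact hrest j h'
      · exact hs
  obtain ⟨rfl, hs⟩ := main k hf hg h
  intro j hj
  rcases hs j hj with h' | h'
  · exact add_left_cancel h'
  · exfalso
    have hw0 : w ≠ 0 := by rintro rfl; simp at hw
    have e : C (2 : K) * w ^ 3 ^ (j + 1) = -(f j + g j) := by
      have h2 : (C (2 : K) : MvPolynomial σ K) = 2 := map_ofNat C 2
      rw [h2]
      linear_combination h'
    have d1 : (C (2 : K) * w ^ 3 ^ (j + 1)).totalDegree = 3 ^ (j + 1) * w.totalDegree := by
      rw [deg_const_mul (by norm_num), deg_pow hw0]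
    rw [e, totalDegree_neg] at d1
    have d2 : (f j + g j).totalDegree < w.totalDegree :=
      lt_of_le_of_lt (totalDegree_add _ _) (max_lt (hf j hj) (hg j hj))
    have d3 : w.totalDegree ≤ 3 ^ (j + 1) * w.totalDegree :=
      Nat.le_mul_of_pos_left _ (by positivity)
    omega

end degree

/-- the variables of `R[x_1, ..., x_n]` as a sequence -/
noncomputable def Xs (R : Type*) [CommRing R] (n : ℕ) : ℕ → MvPolynomial (Fin n) R :=
  fun i => if h : i < n then X ⟨i, h⟩ else 0

/-- the polynomial -/
noncomputable def P (R : Type*) [CommRing R] (n : ℕ) : MvPolynomial (Fin n) R :=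
  V (U (Xs R n) n) (Xs R n) n

universe u

theorem result (n : ℕ) : ∃ p : MvPolynomial (Fin n) ℤ,
    ∀ (K : Type u) [Field K] [CharZero K]
      (φ ψ : MvPolynomial (Fin n) K →ₐ[K] MvPolynomial (Fin n) K),
      (∃ q : MvPolynomial (Fin n) K, ∀ c : K, φ q ≠ C c) →
      φ (map (Int.castRingHom K) p) = ψ (map (Int.castRingHom K) p) →
      φ = ψ := by
  refine ⟨P ℤ n, ?_⟩
  intro K _ _ φ ψ hφ heq
  have hXs : ∀ i, map (Int.castRingHom K) (Xs ℤ n i) = Xs K n i := by
    intro i
    unfold Xs
    split_ifs <;> simp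
  have hP : map (Int.castRingHom K) (P ℤ n) = P K n := by
    unfold P
    rw [map_V (map (Int.castRingHom K)), map_U (map (Int.castRingHom K))]
    simp only [hXs]
  rw [hP] at heq
  set f : ℕ → MvPolynomial (Fin n) K := fun i => φ (Xs K n i) with hfdef
  set g : ℕ → MvPolynomial (Fin n) K := fun i => ψ (Xs K n i) with hgdef
  have hφP : φ (P K n) = V (U f n) f n := by
    have h1 := map_V (φ : MvPolynomial (Fin n) K →+* MvPolynomial (Fin n) K)
      (U (Xs K n) n) (Xs K n) n
    have h2 := map_U (φ : MvPolynomial (Fin n) K →+* MvPolynomial (Fin n) K) (Xs K n) n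
    rw [h2] at h1
    exact h1
  have hψP : ψ (P K n) = V (U g n) g n := by
    have h1 := map_V (ψ : MvPolynomial (Fin n) K →+* MvPolynomial (Fin n) K)
      (U (Xs K n) n) (Xs K n) n
    have h2 := map_U (ψ : MvPolynomial (Fin n) K →+* MvPolynomial (Fin n) K) (Xs K n) n
    rw [h2] at h1
    exact h1
  rw [hφP, hψP] at heq
  -- some `f j` is not constant
  have hnc : ∃ j < n, 0 < (f j).totalDegree := by
    by_contra hcon
    push Not at hcon
    obtain ⟨q, hq⟩ := hφ
    have hall : ∀ i : Fin n, ∃ c : K, φ (X i) = C c := by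
      intro i
      have h0 : (f i).totalDegree = 0 := Nat.le_zero.1 (hcon i i.2)
      have h1 : f i = φ (X i) := by simp [hfdef, Xs]
      rw [h1] at h0
      exact ⟨_, totalDegree_eq_zero_iff_eq_C.1 h0⟩
    choose c hc using hall
    have : φ = (Algebra.ofId K (MvPolynomial (Fin n) K)).comp (aeval c) := by
      apply MvPolynomial.algHom_ext
      intro i
      rw [hc i]
      simp [Algebra.ofId_apply, MvPolynomial.algebraMap_eq]
    refine hq (aeval c q) ?_
    rw [this]
    simp [Algebra.ofId_apply, MvPolynomial.algebraMap_eq]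
  obtain ⟨j0, hj0, hpos0⟩ := hnc
  obtain ⟨m, rfl⟩ : ∃ m, n = m + 1 := ⟨n - 1, by omega⟩
  obtain ⟨hf1, hf2⟩ := deg_U f (m + 1)
  obtain ⟨hg1, hg2⟩ := deg_U g (m + 1)
  have hD : 0 < (U f (m + 1)).totalDegree := lt_of_lt_of_le hpos0 (hf1 j0 hj0)
  have hfV := deg_V (U f (m + 1)) f m hD (hf2 hD)
  have hgVle := deg_V_le (U g (m + 1)) g (m + 1) hg1
  have hD' : 0 < (U g (m + 1)).totalDegree := by
    rw [← heq, hfV] at hgVle
    have : 0 < 2 * 3 ^ (m + 1) * (U f (m + 1)).totalDegree := by positivity
    exact Nat.pos_of_ne_zero (fun h => by rw [h] at hgVle; omega)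
  have hgV := deg_V (U g (m + 1)) g m hD' (hg2 hD')
  have hDD : (U f (m + 1)).totalDegree = (U g (m + 1)).totalDegree := by
    rw [heq, hgV] at hfV
    have : 0 < 2 * 3 ^ (m + 1) := by positivity
    exact (Nat.eq_of_mul_eq_mul_left this hfV).symm
  have hfin := descend (U f (m + 1)) (U g (m + 1)) f g (m + 1) hD hDD (hf2 hD)
    (fun j hj => by rw [hDD]; exact hg2 hD' j hj) heq
  apply MvPolynomial.algHom_ext
  intro i
  have hi := hfin i i.2
  have hX : Xs K (m + 1) (i : ℕ) = X i := by
    unfold Xs
    rw [dif_pos i.2]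
  simp only [hfdef, hgdef, hX] at hi
  exact hi

end Pool.Agent.Results.MP_d61c7e_al.SinglePoly
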